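import Pool.Agent.H76.CL.Abs

/-!
# A Chen type theorem for the orbits of the maps q ↦ a + q d
-/

set_option autoImplicit false

namespace Pool.Agent.Results.MP_8bf9c2_nt.ChenOrbits

open Finset Pool.Agent.H76.CL

theorem iter (a d n : ℤ) (l : ℕ) : (fun q : ℤ => a + q * d)^[l] n = d ^ l * n + a * ∑ t ∈ range l, d ^ t := by
  induction l with
  | zero => simp
  | succ l ih =>
    rw [Function.iterate_succ_apply', ih, sum_range_succ']
    simp only [pow_succ, pow_zero]
    rw [← sum_mul]
    ring

/-- modulo every prime there is an orbit of length `k` without zeros -/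
theorem local_orbit {a d : ℤ} {k : ℕ} (hc : IsCoprime a d)
    (hk : ∀ p : ℕ, p.Prime → p ≤ k → (p : ℤ) ∣ d - 1 → (p : ℤ) ∣ a) (p : ℕ) (hp : p.Prime) :
    ∃ n : ℤ, ∀ l < k, ¬ (p : ℤ) ∣ (fun q : ℤ => a + q * d)^[l] n := by
  have hpp : Prime (p : ℤ) := Nat.prime_iff_prime_int.1 hp
  have h1 : ¬ (p : ℤ) ∣ 1 := by
    intro h
    have : p ∣ 1 := by exact_mod_cast h
    exact hp.one_lt.ne' (Nat.dvd_one.1 this)
  have hnot : ¬ ((p : ℤ) ∣ a ∧ (p : ℤ) ∣ d) := by
    rintro ⟨g1, g2⟩
    obtain ⟨u, v, huv⟩ := hc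
    apply h1
    rw [← huv]
    exact dvd_add (g1.mul_left _) (g2.mul_left _)
  by_cases hd : (p : ℤ) ∣ d
  · -- `p ∣ d`
    have ha : ¬ (p : ℤ) ∣ a := fun h => hnot ⟨h, hd⟩
    refine ⟨1, fun l _ => ?_⟩
    cases l with
    | zero => simpa using h1
    | succ l =>
      rw [Function.iterate_succ_apply']
      intro h
      apply ha
      have h2 := dvd_sub h (hd.mul_left ((fun q : ℤ => a + q * d)^[l] 1))
      simpa using h2
  · by_cases hd1 : (p : ℤ) ∣ d - 1
    · by_cases ha : (p : ℤ) ∣ a
      · -- the identity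
        refine ⟨1, fun l hl => ?_⟩
        have key : (p : ℤ) ∣ (fun q : ℤ => a + q * d)^[l] 1 - 1 := by
          clear hl
          induction l with
          | zero => simp
          | succ l ih =>
            rw [Function.iterate_succ_apply']
            have h2 := dvd_add (dvd_add ha (ih.mul_right d)) hd1
            have e : a + ((fun q : ℤ => a + q * d)^[l] 1 - 1) * d + (d - 1) =
              a + (fun q : ℤ => a + q * d)^[l] 1 * d - 1 := by ring
            rwa [e] at h2
        intro h
        apply h1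
        have := dvd_sub h key
        rwa [sub_sub_cancel] at this
      · -- a translation
        have hkp : k < p := by
          by_contra hcon
          push Not at hcon
          exact ha (hk p hp hcon hd1)
        refine ⟨-(k : ℤ) * a, fun l hl => ?_⟩
        have key : (p : ℤ) ∣ (fun q : ℤ => a + q * d)^[l] (-(k : ℤ) * a) - ((l : ℤ) - k) * a := by
          clear hl
          induction l with
          | zero => simp
          | succ l ih =>
            rw [Function.iterate_succ_apply']
            have h2 := dvd_add (ih.mul_right d) (hd1.mul_left (((l : ℤ) - k) * a))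
            push_cast
            have e : ((fun q : ℤ => a + q * d)^[l] (-(k : ℤ) * a) - ((l : ℤ) - k) * a) * d +
              ((l : ℤ) - k) * a * (d - 1) =
              a + (fun q : ℤ => a + q * d)^[l] (-(k : ℤ) * a) * d - ((l : ℤ) + 1 - k) * a := by ring
            rwa [e] at h2
        intro h
        have h2 := dvd_sub h key
        rw [sub_sub_cancel] at h2
        rcases hpp.dvd_or_dvd h2 with h3 | h3
        · have h4 : (p : ℤ) ∣ ((k - l : ℕ) : ℤ) := by
            rw [Nat.cast_sub hl.le]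
            have := h3.neg_right
            rwa [neg_sub] at this
          have h5 : p ∣ k - l := by exact_mod_cast h4
          have := Nat.le_of_dvd (by omega) h5
          omega
        · exact ha h3
    · by_cases ha : (p : ℤ) ∣ a
      · -- multiplication by `d`
        refine ⟨1, fun l _ => ?_⟩
        induction l with
        | zero => simpa using h1
        | succ l ih =>
          rw [Function.iterate_succ_apply']
          intro h
          have h2 := dvd_sub h ha
          rw [add_sub_cancel_left] at h2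
          rcases hpp.dvd_or_dvd h2 with h3 | h3
          · exact ih (by omega) h3
          · exact hd h3
      · -- a fixed point
        obtain ⟨u, v, huv⟩ : IsCoprime (d - 1) (p : ℤ) := ((hpp.coprime_iff_not_dvd).2 hd1).symm
        refine ⟨-(u * a), fun l hl => ?_⟩
        have key : (p : ℤ) ∣ (fun q : ℤ => a + q * d)^[l] (-(u * a)) - -(u * a) := by
          clear hl
          induction l with
          | zero => simp
          | succ l ih =>
            rw [Function.iterate_succ_apply']
            have h2 := dvd_add (ih.mul_right d) (Dvd.intro (v * a) rfl : (p : ℤ) ∣ p * (v * a))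
            have e : ((fun q : ℤ => a + q * d)^[l] (-(u * a)) - -(u * a)) * d + (p : ℤ) * (v * a) =
              a + (fun q : ℤ => a + q * d)^[l] (-(u * a)) * d - -(u * a) := by
              linear_combination a * huv
            rwa [e] at h2
        intro h
        have h2 := dvd_sub h key
        rw [sub_sub_cancel] at h2
        have h3 : (p : ℤ) ∣ u * a := by
          have := h2.neg_right
          rwa [neg_neg] at this
        apply ha
        have h4 : a = u * a * (d - 1) + (p : ℤ) * (v * a) := by linear_combination (-a) * huv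
        rw [h4]
        exact dvd_add (h3.mul_right _) (dvd_mul_right _ _)

/-- **A Chen type theorem for the orbits of `q ↦ a + q d`.**  Let `k ≥ 2`, `K ≥ 1` and `θ > 0`.  There are `c, ε > 0`,
`r` and `x₀` such that for all `x ≥ x₀` and `y ≤ (1 - θ) x` and all coprime integers `1 ≤ d ≤ K`, `0 < |a| ≤ K x` such
that every prime `p ≤ k` which divides `d - 1` also divides `a` (for `k = 2` this says that `a d` is even), and for all
`i ≠ j` below `k`: for at least `c (1 + S) x / (log x) ^ k` of the integers `y < n ≤ x`, in the orbit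
`n, f n, ..., f^(k-1) n` of `n` under the map `f q = a + q d` the absolute value of the term with the index `i` is a
prime, the one with the index `j` is a prime or a product of two primes, both `≥ x ^ (1 / 9)`, and all of them have at
most `r` prime factors, all `≥ x ^ ε`.  Here `S` is the product of `(1 - w(p) / p) / (1 - 1 / p) ^ k` over the primes
`p ≤ x`, with `w(p)` the number of `n` modulo `p` for which `p` divides a term of the orbit. -/
theorem result : ∀ k K : ℕ, 2 ≤ k → 1 ≤ K → ∀ θ : ℝ, 0 < θ →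
    ∃ c ε : ℝ, 0 < c ∧ 0 < ε ∧ ∃ r x₀ : ℕ, ∀ x : ℕ, x₀ ≤ x → ∀ y : ℕ, (y : ℝ) + θ * x ≤ x →
      ∀ a d : ℤ, 1 ≤ d → d ≤ K → a ≠ 0 → |a| ≤ K * x → IsCoprime a d →
      (∀ p : ℕ, p.Prime → p ≤ k → (p : ℤ) ∣ d - 1 → (p : ℤ) ∣ a) →
      ∀ i < k, ∀ j < k, i ≠ j →
        c * (1 + ∏ p ∈ (Icc 1 x).filter Nat.Prime,
          (1 - (((range p).filter (fun n : ℕ =>
            ∃ l < k, (p : ℤ) ∣ (fun q : ℤ => a + q * d)^[l] n)).card : ℝ) / p) / (1 - 1 / (p : ℝ)) ^ k) *
            (x / Real.log x ^ k) ≤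
          ({n : ℕ | y < n ∧ n ≤ x ∧ ((fun q : ℤ => a + q * d)^[i] n).natAbs.Prime ∧
            ((fun q : ℤ => a + q * d)^[j] n).natAbs.primeFactorsList.length ≤ 2 ∧
            (∀ q ∈ ((fun q : ℤ => a + q * d)^[j] n).natAbs.primeFactors, (x : ℝ) ^ (1 / 9 : ℝ) ≤ q) ∧
            ∀ l < k, ((fun q : ℤ => a + q * d)^[l] n).natAbs.primeFactorsList.length ≤ r ∧
              ∀ q ∈ ((fun q : ℤ => a + q * d)^[l] n).natAbs.primeFactors, (x : ℝ) ^ ε ≤ q}.ncard : ℝ) := by
  classical
  intro k K hk hK θ hθ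
  set K' : ℕ := K * (k * K ^ k) + 1 with hK'
  obtain ⟨ε, c, hε0, hc, r, B₀, hB₀⟩ := chen_abs k K' hk (by omega) θ hθ
  obtain ⟨c', hc', hboth⟩ := both k 1 le_rfl
  refine ⟨c * c', ε, by positivity, hε0, r, B₀ + K' + 4, ?_⟩
  intro x hx y hy a d hd1 hdK ha haK hcop hloc i hi j hj hij
  set F : ℕ → ℤ × ℤ := fun l => (d ^ l, a * ∑ t ∈ range l, d ^ t) with hF
  set G : Finset (ℤ × ℤ) := (range k).image F with hG
  have hmem : ∀ l < k, F l ∈ G := fun l hl => mem_image_of_mem _ (mem_range.2 hl)
  have hval : ∀ (l : ℕ) (n : ℤ), val (F l) n = (fun q : ℤ => a + q * d)^[l] n := by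
    intro l n
    rw [iter]
    rfl
  have hKz : (1 : ℤ) ≤ K := by exact_mod_cast hK
  have hdpow : ∀ l < k, d ^ l ≤ (K : ℤ) ^ k := by
    intro l hl
    calc d ^ l ≤ (K : ℤ) ^ l := pow_le_pow_left₀ (by linarith) hdK l
      _ ≤ (K : ℤ) ^ k := pow_le_pow_right₀ hKz hl.le
  have hdpow1 : ∀ l : ℕ, 1 ≤ d ^ l := fun l => one_le_pow₀ hd1
  have hsum : ∀ l < k, 0 ≤ ∑ t ∈ range l, d ^ t ∧ ∑ t ∈ range l, d ^ t ≤ (k : ℤ) * (K : ℤ) ^ k := by
    intro l hl
    constructor
    · exact sum_nonneg fun t _ => by have := hdpow1 t; linarith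
    · calc ∑ t ∈ range l, d ^ t ≤ ∑ t ∈ range l, (K : ℤ) ^ k :=
            sum_le_sum fun t ht => hdpow t ((mem_range.1 ht).trans hl)
        _ = (l : ℤ) * (K : ℤ) ^ k := by rw [sum_const, card_range, nsmul_eq_mul]
        _ ≤ (k : ℤ) * (K : ℤ) ^ k :=
            mul_le_mul_of_nonneg_right (by exact_mod_cast hl.le) (by positivity)
  have hx0 : (0 : ℤ) ≤ x := Int.natCast_nonneg _
  have hsec : ∀ l < k, |(F l).2| ≤ (K' : ℤ) * x := by
    intro l hl
    obtain ⟨h1, h2⟩ := hsum l hl
    show |a * ∑ t ∈ range l, d ^ t| ≤ _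
    rw [abs_mul, abs_of_nonneg h1]
    calc |a| * ∑ t ∈ range l, d ^ t ≤ (K * x) * ((k : ℤ) * (K : ℤ) ^ k) :=
          mul_le_mul haK h2 h1 (by positivity)
      _ = (K * (k * K ^ k) : ℕ) * (x : ℤ) := by push_cast; ring
      _ ≤ (K' : ℤ) * x := by
          apply mul_le_mul_of_nonneg_right _ hx0
          rw [hK']
          push_cast
          linarith
  have hxK : (K' : ℤ) ≤ x := by exact_mod_cast (by omega : K' ≤ x)
  have hx1 : (1 : ℤ) ≤ x := by exact_mod_cast (by omega : 1 ≤ x)
  have hK'2 : 2 ≤ K' := by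
    rw [hK']
    have : 1 ≤ K * (k * K ^ k) := Nat.mul_pos hK (Nat.mul_pos (by omega) (Nat.pow_pos hK))
    omega
  have hdet : ∀ i j : ℕ, i < j → (F i).1 * (F j).2 - (F j).1 * (F i).2 = a * (d ^ i * ∑ t ∈ range (j - i), d ^ t) := by
    intro i j hij
    show d ^ i * (a * ∑ t ∈ range j, d ^ t) - d ^ j * (a * ∑ t ∈ range i, d ^ t) = _
    obtain ⟨s, rfl⟩ : ∃ s, j = i + s := ⟨j - i, by omega⟩
    rw [Nat.add_sub_cancel_left]
    have e : ∀ i s : ℕ, d ^ i * ∑ t ∈ range (i + s), d ^ t - d ^ (i + s) * ∑ t ∈ range i, d ^ t =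
        d ^ i * ∑ t ∈ range s, d ^ t := by
      intro i s
      induction i with
      | zero => simp
      | succ i ih =>
        have h1 : ∑ t ∈ range (i + 1 + s), d ^ t = ∑ t ∈ range (i + s), d ^ t + d ^ (i + s) := by
          rw [show i + 1 + s = (i + s) + 1 by ring, sum_range_succ]
        rw [h1, sum_range_succ]
        have e1 : d ^ (i + 1) * (∑ t ∈ range (i + s), d ^ t + d ^ (i + s)) -
          d ^ (i + 1 + s) * (∑ t ∈ range i, d ^ t + d ^ i) =
          d * (d ^ i * ∑ t ∈ range (i + s), d ^ t - d ^ (i + s) * ∑ t ∈ range i, d ^ t) := by ring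
        rw [e1, ih]
        ring
    linear_combination a * e i s
  have hdne : ∀ i j : ℕ, i < j → (F i).1 * (F j).2 - (F j).1 * (F i).2 ≠ 0 := by
    intro i j hij
    rw [hdet i j hij]
    have h1 := hdpow1 i
    have h2 : 1 ≤ ∑ t ∈ range (j - i), d ^ t := by
      calc (1 : ℤ) = d ^ 0 := by simp
        _ ≤ _ := single_le_sum (f := fun t => d ^ t) (fun t _ => by have := hdpow1 t; linarith)
            (mem_range.2 (by omega : 0 < j - i))
    exact mul_ne_zero ha (mul_pos (by linarith) (by linarith)).ne'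
  have hdne' : (F i).1 * (F j).2 - (F j).1 * (F i).2 ≠ 0 := by
    rcases lt_or_gt_of_ne hij with h | h
    · exact hdne i j h
    · intro h0
      apply hdne j i h
      linarith
  obtain ⟨hm1, hm2⟩ := hB₀ x (by omega) y hy G (by
      refine card_image_le.trans ?_
      rw [card_range]) (F i) (hmem i hi) (F j) (hmem j hj)
    (by
      intro g hg
      rw [hG, mem_image] at hg
      obtain ⟨l, hl, rfl⟩ := hg
      rw [mem_range] at hl
      refine ⟨?_, ?_, ?_⟩
      · show d ^ l ≠ 0
        have := hdpow1 l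
        linarith
      · show |d ^ l| ≤ (K' : ℤ)
        rw [abs_of_nonneg (by have := hdpow1 l; linarith)]
        refine (hdpow l hl).trans ?_
        have h1 : K ^ k ≤ K' := by
          rw [hK']
          calc K ^ k ≤ k * K ^ k := Nat.le_mul_of_pos_left _ (by omega)
            _ ≤ K * (k * K ^ k) := Nat.le_mul_of_pos_left _ hK
            _ ≤ _ := Nat.le_succ _
        exact_mod_cast h1
      · refine (hsec l hl).trans ?_
        calc (K' : ℤ) * x ≤ x * x := mul_le_mul_of_nonneg_right hxK hx0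
          _ = (x : ℤ) ^ 2 := by ring
          _ ≤ (x : ℤ) ^ K' := pow_le_pow_right₀ hx1 hK'2)
    (hsec i hi) (hsec j hj) hdne'
    (by
      intro p hp
      obtain ⟨n, hn⟩ := local_orbit hcop hloc p hp
      refine ⟨n, fun g hg => ?_⟩
      rw [hG, mem_image] at hg
      obtain ⟨l, hl, rfl⟩ := hg
      rw [hval]
      exact hn l (mem_range.1 hl))
  set ν : ℕ → ℕ := fun p => ((range p).filter (fun n : ℕ =>
            ∃ l < k, (p : ℤ) ∣ (fun q : ℤ => a + q * d)^[l] n)).card with hν
  have hν1 : ∀ p : ℕ, p.Prime → (rts G p).card ≤ ν p := by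
    intro p hp
    apply card_le_card
    intro m hm
    unfold rts at hm
    rw [mem_filter] at hm ⊢
    obtain ⟨h1, g, hg, h2⟩ := hm
    refine ⟨h1, ?_⟩
    rw [hG, mem_image] at hg
    obtain ⟨l, hl, rfl⟩ := hg
    rw [hval] at h2
    exact ⟨l, mem_range.1 hl, h2⟩
  have hν2 : ∀ p : ℕ, p.Prime → ν p ≤ p := by
    intro p hp
    have := card_le_card (filter_subset (fun n : ℕ =>
            ∃ l < k, (p : ℤ) ∣ (fun q : ℤ => a + q * d)^[l] n) (range p))
    rwa [card_range] at this
  have hfin := hboth c _ hc x x (by omega) le_rfl (by rw [one_mul]) G ν hν1 hν2 hm1 hm2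
  refine le_trans ?_ (hfin.trans (card_le_ncard (T := {n : ℕ | y < n ∧ n ≤ x ∧
            ((fun q : ℤ => a + q * d)^[i] n).natAbs.Prime ∧
            ((fun q : ℤ => a + q * d)^[j] n).natAbs.primeFactorsList.length ≤ 2 ∧
            (∀ q ∈ ((fun q : ℤ => a + q * d)^[j] n).natAbs.primeFactors, (x : ℝ) ^ (1 / 9 : ℝ) ≤ q) ∧
            ∀ l < k, ((fun q : ℤ => a + q * d)^[l] n).natAbs.primeFactorsList.length ≤ r ∧
              ∀ q ∈ ((fun q : ℤ => a + q * d)^[l] n).natAbs.primeFactors, (x : ℝ) ^ ε ≤ q}) x ?_ ?_))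
  · apply le_of_eq
    congr!
  · intro n hn
    unfold SysA at hn
    rw [mem_filter, mem_Ioc] at hn
    obtain ⟨⟨h1, h2⟩, h3, h4, h5, h6⟩ := hn
    rw [hval] at h3 h4
    refine ⟨h1, h2, h3, h4, ?_, ?_⟩
    · intro q hq
      apply h5 q (Nat.prime_of_mem_primeFactors hq)
      rw [hval]
      exact Int.natCast_dvd.2 (Nat.dvd_of_mem_primeFactors hq)
    · intro l hl
      obtain ⟨g1, g2⟩ := h6 (F l) (hmem l hl)
      rw [hval] at g1
      refine ⟨g1, fun q hq => g2 q (Nat.prime_of_mem_primeFactors hq) ?_⟩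
      rw [hval]
      exact Int.natCast_dvd.2 (Nat.dvd_of_mem_primeFactors hq)
  · intro n hn
    exact hn.2.1

end Pool.Agent.Results.MP_8bf9c2_nt.ChenOrbits
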