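import Pool.Agent.H76.NA.Sys
import Pool.Agent.Results.MP_8bf9c2_nt.ChenOrbits

/-!
# Szemerédi's theorem, with narrow progressions, for Chen type orbits of the maps q ↦ a + q d
-/

set_option autoImplicit false

namespace Pool.Agent.Results.MP_8bf9c2_nt.SzemerediOrbits

open Finset Pool.Agent.H76.CL Pool.Agent.H76.NA
open Pool.Agent.Results.MP_8bf9c2_nt.ChenOrbits (iter local_orbit)

/-- **Szemerédi's theorem for Chen type orbits of `q ↦ a + q d`.**  Let `k ≥ 2`, `K ≥ 1` and `θ > 0`.  There are `ε > 0`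
and `r` such that for all `m` and `δ > 0` there are `C` and `x₀` with the following property.  Let `x ≥ x₀` and
`y ≤ (1 - θ) x`, let `1 ≤ d ≤ K`, `0 < |a| ≤ K x` be coprime integers such that every prime `p ≤ k` which divides
`d - 1` also divides `a` (for `k = 2` this says that `a d` is even), let `i ≠ j` be below `k`, and let `T` be the set of
the integers `y < n ≤ x` for which in the orbit `n, f n, ..., f^(k-1) n` of `n` under the map `f q = a + q d` the
absolute value of the term with the index `i` is a prime, the one with the index `j` is a prime or a product of two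
primes, both `≥ x ^ (1 / 9)`, and all of them are different from zero and have at most `r` prime factors, all
`≥ x ^ ε`.  Then every subset `S` of `T` with at least `δ |T|` elements contains an arithmetic progression of `m` terms
with a difference `1 ≤ e ≤ (log x) ^ C`. -/
theorem result : ∀ k K : ℕ, 2 ≤ k → 1 ≤ K → ∀ θ : ℝ, 0 < θ →
    ∃ ε : ℝ, 0 < ε ∧ ∃ r : ℕ, ∀ (m : ℕ) (δ : ℝ), 0 < δ → ∃ C x₀ : ℕ, ∀ x : ℕ, x₀ ≤ x → ∀ y : ℕ,
      (y : ℝ) + θ * x ≤ x →
      ∀ a d : ℤ, 1 ≤ d → d ≤ K → a ≠ 0 → |a| ≤ K * x → IsCoprime a d →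
      (∀ p : ℕ, p.Prime → p ≤ k → (p : ℤ) ∣ d - 1 → (p : ℤ) ∣ a) →
      ∀ i < k, ∀ j < k, i ≠ j →
      ∀ T : Set ℕ, T = {n : ℕ | y < n ∧ n ≤ x ∧ ((fun q : ℤ => a + q * d)^[i] n).natAbs.Prime ∧
            ((fun q : ℤ => a + q * d)^[j] n).natAbs.primeFactorsList.length ≤ 2 ∧
            (∀ q ∈ ((fun q : ℤ => a + q * d)^[j] n).natAbs.primeFactors, (x : ℝ) ^ (1 / 9 : ℝ) ≤ q) ∧
            ∀ l < k, (fun q : ℤ => a + q * d)^[l] n ≠ 0 ∧
              ((fun q : ℤ => a + q * d)^[l] n).natAbs.primeFactorsList.length ≤ r ∧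
              ∀ q ∈ ((fun q : ℤ => a + q * d)^[l] n).natAbs.primeFactors, (x : ℝ) ^ ε ≤ q} →
      ∀ S : Set ℕ, S ⊆ T → δ * (T.ncard : ℝ) ≤ (S.ncard : ℝ) →
        ∃ u e : ℕ, 1 ≤ e ∧ (e : ℝ) ≤ Real.log x ^ C ∧ ∀ t < m, u + t * e ∈ S := by
  classical
  intro k K hk hK θ hθ
  set K' : ℕ := K * (k * K ^ k) + 1 with hK'
  obtain ⟨ε, hε0, r, hh⟩ := szem_lin k K' hk (by omega) θ hθ
  refine ⟨ε, hε0, r, fun m δ hδ => ?_⟩
  obtain ⟨C, B₀, hB₀⟩ := hh m δ hδ
  obtain ⟨x₁, hx₁⟩ := large hε0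
  refine ⟨C, B₀ + K' + 4 + x₁, ?_⟩
  intro x hx y hy a d hd1 hdK ha haK hcop hloc i hi j hj hij T hT
  set F : ℕ → ℤ × ℤ := fun l => (d ^ l, a * ∑ t ∈ range l, d ^ t) with hF
  set G : Finset (ℤ × ℤ) := (range k).image F with hG
  have hmem : ∀ l < k, F l ∈ G := fun l hl => mem_image_of_mem _ (mem_range.2 hl)
  have hval : ∀ (l : ℕ) (n : ℤ), val (F l) n = (fun q : ℤ => a + q * d)^[l] n := by
    intro l n
    rw [iter]
    rfl
  have hKz : (1 : ℤ) ≤ K := by exact_mod_cast hK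
  have hdpow : ∀ l < k, d ^ l ≤ (K : ℤ) ^ k := by
    intro l hl
    calc d ^ l ≤ (K : ℤ) ^ l := pow_le_pow_left₀ (by linarith) hdK l
      _ ≤ (K : ℤ) ^ k := pow_le_pow_right₀ hKz hl.le
  have hdpow1 : ∀ l : ℕ, 1 ≤ d ^ l := fun l => one_le_pow₀ hd1
  have hsum : ∀ l < k, 0 ≤ ∑ t ∈ range l, d ^ t ∧ ∑ t ∈ range l, d ^ t ≤ (k : ℤ) * (K : ℤ) ^ k := by
    intro l hl
    constructor
    · exact sum_nonneg fun t _ => by have := hdpow1 t; linarith
    · calc ∑ t ∈ range l, d ^ t ≤ ∑ t ∈ range l, (K : ℤ) ^ k :=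
            sum_le_sum fun t ht => hdpow t ((mem_range.1 ht).trans hl)
        _ = (l : ℤ) * (K : ℤ) ^ k := by rw [sum_const, card_range, nsmul_eq_mul]
        _ ≤ (k : ℤ) * (K : ℤ) ^ k :=
            mul_le_mul_of_nonneg_right (by exact_mod_cast hl.le) (by positivity)
  have hx0 : (0 : ℤ) ≤ x := Int.natCast_nonneg _
  have hsec : ∀ l < k, |(F l).2| ≤ (K' : ℤ) * x := by
    intro l hl
    obtain ⟨h1, h2⟩ := hsum l hl
    show |a * ∑ t ∈ range l, d ^ t| ≤ _
    rw [abs_mul, abs_of_nonneg h1]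
    calc |a| * ∑ t ∈ range l, d ^ t ≤ (K * x) * ((k : ℤ) * (K : ℤ) ^ k) :=
          mul_le_mul haK h2 h1 (by positivity)
      _ = (K * (k * K ^ k) : ℕ) * (x : ℤ) := by push_cast; ring
      _ ≤ (K' : ℤ) * x := by
          apply mul_le_mul_of_nonneg_right _ hx0
          rw [hK']
          push_cast
          linarith
  have hxK : (K' : ℤ) ≤ x := by exact_mod_cast (by omega : K' ≤ x)
  have hx1 : (1 : ℤ) ≤ x := by exact_mod_cast (by omega : 1 ≤ x)
  have hK'2 : 2 ≤ K' := by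
    rw [hK']
    have : 1 ≤ K * (k * K ^ k) := Nat.mul_pos hK (Nat.mul_pos (by omega) (Nat.pow_pos hK))
    omega
  have hdet : ∀ i j : ℕ, i < j → (F i).1 * (F j).2 - (F j).1 * (F i).2 = a * (d ^ i * ∑ t ∈ range (j - i), d ^ t) := by
    intro i j hij
    show d ^ i * (a * ∑ t ∈ range j, d ^ t) - d ^ j * (a * ∑ t ∈ range i, d ^ t) = _
    obtain ⟨s, rfl⟩ : ∃ s, j = i + s := ⟨j - i, by omega⟩
    rw [Nat.add_sub_cancel_left]
    have e : ∀ i s : ℕ, d ^ i * ∑ t ∈ range (i + s), d ^ t - d ^ (i + s) * ∑ t ∈ range i, d ^ t =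
        d ^ i * ∑ t ∈ range s, d ^ t := by
      intro i s
      induction i with
      | zero => simp
      | succ i ih =>
        have h1 : ∑ t ∈ range (i + 1 + s), d ^ t = ∑ t ∈ range (i + s), d ^ t + d ^ (i + s) := by
          rw [show i + 1 + s = (i + s) + 1 by ring, sum_range_succ]
        rw [h1, sum_range_succ]
        have e1 : d ^ (i + 1) * (∑ t ∈ range (i + s), d ^ t + d ^ (i + s)) -
          d ^ (i + 1 + s) * (∑ t ∈ range i, d ^ t + d ^ i) =
          d * (d ^ i * ∑ t ∈ range (i + s), d ^ t - d ^ (i + s) * ∑ t ∈ range i, d ^ t) := by ring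
        rw [e1, ih]
        ring
    linear_combination a * e i s
  have hdne : ∀ i j : ℕ, i < j → (F i).1 * (F j).2 - (F j).1 * (F i).2 ≠ 0 := by
    intro i j hij
    rw [hdet i j hij]
    have h1 := hdpow1 i
    have h2 : 1 ≤ ∑ t ∈ range (j - i), d ^ t := by
      calc (1 : ℤ) = d ^ 0 := by simp
        _ ≤ _ := single_le_sum (f := fun t => d ^ t) (fun t _ => by have := hdpow1 t; linarith)
            (mem_range.2 (by omega : 0 < j - i))
    exact mul_ne_zero ha (mul_pos (by linarith) (by linarith)).ne'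
  have hdne' : (F i).1 * (F j).2 - (F j).1 * (F i).2 ≠ 0 := by
    rcases lt_or_gt_of_ne hij with h | h
    · exact hdne i j h
    · intro h0
      apply hdne j i h
      linarith
  have hmain := hB₀ x (by omega) y hy G (by
      refine card_image_le.trans ?_
      rw [card_range]) (F i) (hmem i hi) (F j) (hmem j hj)
    (by
      intro g hg
      rw [hG, mem_image] at hg
      obtain ⟨l, hl, rfl⟩ := hg
      rw [mem_range] at hl
      refine ⟨?_, ?_, ?_⟩
      · show d ^ l ≠ 0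
        have := hdpow1 l
        linarith
      · show |d ^ l| ≤ (K' : ℤ)
        rw [abs_of_nonneg (by have := hdpow1 l; linarith)]
        refine (hdpow l hl).trans ?_
        have h1 : K ^ k ≤ K' := by
          rw [hK']
          calc K ^ k ≤ k * K ^ k := Nat.le_mul_of_pos_left _ (by omega)
            _ ≤ K * (k * K ^ k) := Nat.le_mul_of_pos_left _ hK
            _ ≤ _ := Nat.le_succ _
        exact_mod_cast h1
      · refine (hsec l hl).trans ?_
        calc (K' : ℤ) * x ≤ x * x := mul_le_mul_of_nonneg_right hxK hx0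
          _ = (x : ℤ) ^ 2 := by ring
          _ ≤ (x : ℤ) ^ K' := pow_le_pow_right₀ hx1 hK'2)
    (hsec i hi) (hsec j hj) hdne'
    (by
      intro p hp
      obtain ⟨n, hn⟩ := local_orbit hcop hloc p hp
      refine ⟨n, fun g hg => ?_⟩
      rw [hG, mem_image] at hg
      obtain ⟨l, hl, rfl⟩ := hg
      rw [hval]
      exact hn l (mem_range.1 hl))
  apply to_set (U := SysA (F i) (F j) G y x r ε) ?_ hmain
  rw [hT]
  ext n
  rw [Set.mem_ofPred_eq, mem_coe, mem_SysA]
  constructor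
  · rintro ⟨h1, h2, h3, h4, h5, h6⟩
    refine ⟨⟨h1, h2⟩, by rwa [hval], by rwa [hval], ?_, ?_⟩
    · rw [hval]
      exact (fac_iff rfl (Int.natAbs_ne_zero.2 (h6 j hj).1) _).2 h5
    · intro g hg
      rw [hG, mem_image] at hg
      obtain ⟨l, hl, rfl⟩ := hg
      rw [mem_range] at hl
      rw [hval]
      exact ⟨(h6 l hl).2.1, (fac_iff rfl (Int.natAbs_ne_zero.2 (h6 l hl).1) _).2 (h6 l hl).2.2⟩
  · rintro ⟨⟨h1, h2⟩, h3, h4, h5, h6⟩
    rw [hval] at h3 h4
    have hne : ∀ l < k, (fun q : ℤ => a + q * d)^[l] n ≠ 0 := by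
      intro l hl h0
      have h7 := (h6 (F l) (hmem l hl)).2
      rw [hval, h0] at h7
      have h8 := h7 2 Nat.prime_two (dvd_zero _)
      push_cast at h8
      have h9 := hx₁ x (by omega)
      linarith
    refine ⟨h1, h2, h3, h4, ?_, fun l hl => ?_⟩
    · rw [hval] at h5
      exact (fac_iff rfl (Int.natAbs_ne_zero.2 (hne j hj)) _).1 h5
    · have h7 := h6 (F l) (hmem l hl)
      rw [hval] at h7
      exact ⟨hne l hl, h7.1, (fac_iff rfl (Int.natAbs_ne_zero.2 (hne l hl)) _).1 h7.2⟩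

end Pool.Agent.Results.MP_8bf9c2_nt.SzemerediOrbits
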