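import Mathlib
import Pool.Agent.H74.Comp
import Pool.Agent.H74.Defs

/-!
# Five ninths of the iterates, uniformly in the map

The `j`-th iterate of `x ↦ a + d x` is `x ↦ a (1 + d + ... + d ^ (j - 1)) + d ^ j x`. For every `ε > 0` there is
`J`, and for every function `Φ` there is `N₀`, such that for EVERY pair `(a, d)` of the question, `a ≠ 0`, there
is `M ≤ N₀` such that for every multiple `N ≤ Φ M` of `M` there is `L ≤ N₀` such that among any `T` consecutive
multiples `N (u + 1), ..., N (u + T)` of `N`, `L ≤ T ≤ Φ L`, `u ≤ Φ L`, at least `(5/9 - ε) T` are good: the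
pair of the iterate satisfies the hypotheses of the question, and there is a set `E` of at most `J` exponents,
which contains the given one, such that for every `R` and every `l`, for some `C` and arbitrarily large `X`, at
least `X / (log X)^C` of the progressions of length `l` and of one and the same common difference
`≤ (log X)^C` below `X` consist of primes `q` for which among the first `R` iterates of `q` exactly those with
the exponents in `E` are prime. For instance (`Φ` constant) there are absolute constants `m₀`, `H₀` such that for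
every pair at least `(5/9 - ε) H` of `M, 2 M, ..., H M` are good for some `M ≤ m₀`, `H ≤ H₀`.

The theorem for one map, with `M` and `L` depending on the map, is in the starting files
(`FiveNinthsOfIterates`); new is the uniformity. The theorem on classes of linear forms with the constant
`18/5`, with exact sets of primes and narrow progressions (`Pool.Agent.K1H50.NP.clq`), and the theorem on sets of
differences of many classes (`Pool.Agent.W142.TB.s_maiB`, in the form `Pool.Agent.K1H50.NP.mth59`) are from the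
starting files.
-/

set_option autoImplicit false

namespace Pool.Agent.Results.MP_8bf9c2_nt.UniformFiveNinths

open Finset Filter Pool.Agent.H74

open Pool.Agent.Y863.AU in
theorem result : ∀ ε : ℝ, 0 < ε → ∃ J : ℕ, ∀ Φ : ℕ → ℕ, ∃ N₀ : ℕ,
    ∀ a d : ℤ, 1 ≤ d → Int.gcd a d = 1 → 2 ∣ a * d → a ≠ 0 →
    ∃ M : ℕ, 0 < M ∧ M ≤ N₀ ∧ ∀ N : ℕ, 0 < N → N ≤ Φ M → M ∣ N → ∃ L : ℕ, L ≤ N₀ ∧
      ∀ T : ℕ, L ≤ T → T ≤ Φ L → ∀ u : ℕ, u ≤ Φ L →
        (5 / 9 - ε) * (T : ℝ) ≤ ({k : ℕ | u < k ∧ k ≤ u + T ∧ Good J a d (N * k)}.ncard : ℝ) := by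
  classical
  intro ε hε
  obtain ⟨n, hn, hm⟩ := Pool.Agent.K1H50.NP.mth59 ε hε
  obtain ⟨K, hK, hh⟩ := Pool.Agent.H74.hits59 n hn
  refine ⟨n * K, fun Φ => ?_⟩
  obtain ⟨N₀, hN₀⟩ := Pool.Agent.H74.unif (fun G hG => hm K G hG) Φ
  refine ⟨N₀, fun a d hd hg h2 ha => ?_⟩
  have hA : (⟨a, d⟩ : Af).Adm := ⟨hg, h2⟩
  obtain ⟨M, hM, hMN, h⟩ := hN₀ _ (hh ⟨a, d⟩ hd hA (fun h1 => ha (congrArg Af.a h1)))
  refine ⟨M, hM, hMN, fun N hN hNΦ hMN' => ?_⟩
  obtain ⟨L, hL, h1⟩ := h N hN hNΦ hMN'
  refine ⟨L, hL, fun T hT hTΦ u hu => (h1 T hT hTΦ u hu).trans ?_⟩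
  rw [Nat.cast_le]
  refine Set.ncard_le_ncard ?_ ((Set.finite_Ioc u (u + T)).subset fun k hk => ⟨hk.1, hk.2.1⟩)
  rintro k ⟨hk1, hk2, hk3⟩
  exact ⟨hk1, hk2, good_of hA hk3⟩

end Pool.Agent.Results.MP_8bf9c2_nt.UniformFiveNinths
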