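import Mathlib
import Pool.Agent.H74.Third
import Pool.Agent.H74.Defs

/-!
# A third of the first `H` iterates, uniformly in the map

The `j`-th iterate of `x ↦ a + d x` is `x ↦ a (1 + d + ... + d ^ (j - 1)) + d ^ j x`. For every `ε > 0` there are
absolute constants `J` and `H₀` such that for EVERY pair `(a, d)` of the question, `a ≠ 0`, for every `m ≥ 1` and
for every `H ≥ H₀` at least `(1/3 - ε) H` of the exponents `m, 2 m, ..., H m` are good: the pair of the iterate
satisfies the hypotheses of the question, and there is a set `E` of at most `J` exponents, which contains the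
given one, such that for every `R` and every `l`, for some `C` and arbitrarily large `X`, at least
`X / (log X)^C` of the progressions of length `l` and of one and the same common difference `≤ (log X)^C` below
`X` consist of primes `q` for which among the first `R` iterates of `q` exactly those with the exponents in `E`
are prime.

New: the number `H₀` does not depend on the pair and on `m`. The theorem on classes of linear forms with the
constant `18/5`, with exact sets of primes and narrow progressions, in the form `Pool.Agent.K1H50.NP.clq`, and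
the combinatorial argument for the proportion `1/3` (`Pool.Agent.TH899.UG.TD`) are from the starting files.
-/

set_option autoImplicit false

namespace Pool.Agent.Results.MP_8bf9c2_nt.UniformThirdOfIterates

open Finset Filter Pool.Agent.H74

open Pool.Agent.Y863.AU in
theorem result : ∀ ε : ℝ, 0 < ε → ∃ J H₀ : ℕ, ∀ a d : ℤ, 1 ≤ d → Int.gcd a d = 1 → 2 ∣ a * d → a ≠ 0 →
    ∀ m : ℕ, 1 ≤ m → ∀ H : ℕ, H₀ ≤ H →
      (1 / 3 - ε) * (H : ℝ) ≤ ({k : ℕ | 1 ≤ k ∧ k ≤ H ∧ Good J a d (m * k)}.ncard : ℝ) := by
  classical
  intro ε hε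
  obtain ⟨K, hK, hh⟩ := Pool.Agent.H74.hits
  obtain ⟨H₀, hH₀⟩ := Pool.Agent.H74.thirdG K ε hε
  refine ⟨4 * K, H₀, fun a d hd hg h2 ha m hm H hH => ?_⟩
  have hA : (⟨a, d⟩ : Af).Adm := ⟨hg, h2⟩
  have h1 := hH₀ _ (hh ⟨a, d⟩ hd hA (fun h1 => ha (congrArg Af.a h1)) m hm) H hH
  refine h1.trans ?_
  rw [Nat.cast_le, ← Set.ncard_coe_finset]
  refine Set.ncard_le_ncard ?_ ((Set.finite_le_nat H).subset fun k hk => hk.2.1)
  intro k hk
  rw [mem_coe, mem_filter, mem_Icc] at hk
  exact ⟨hk.1.1, hk.1.2, good_of hA hk.2⟩

end Pool.Agent.Results.MP_8bf9c2_nt.UniformThirdOfIterates
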